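import Mathlib

set_option autoImplicit false

namespace Pool.Agent.H.MP_c1092b_gt

open Set Topology Filter

def JJ (L : Type) : Type := L × WithTop L

variable {L : Type} [ConditionallyCompleteLinearOrderBot L]

instance : PartialOrder (JJ L) where
  le p q := (p.1 = q.1 ∧ p.2 ≤ q.2) ∨ (q.2 = ⊤ ∧ p.2 ≤ (q.1 : WithTop L))
  le_refl p := Or.inl ⟨rfl, le_rfl⟩
  le_trans p q r h1 h2 := by
    rcases h1 with ⟨h1, h1'⟩ | ⟨h1, h1'⟩ <;> rcases h2 with ⟨h2, h2'⟩ | ⟨h2, h2'⟩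
    · exact Or.inl ⟨h1.trans h2, h1'.trans h2'⟩
    · exact Or.inr ⟨h2, h1'.trans h2'⟩
    · exact Or.inr ⟨top_le_iff.1 (h1 ▸ h2'), h2 ▸ h1'⟩
    · rw [h1] at h2'; simp at h2'
  le_antisymm p q h1 h2 := by
    rcases h1 with ⟨h1, h1'⟩ | ⟨h1, h1'⟩ <;> rcases h2 with ⟨h2, h2'⟩ | ⟨h2, h2'⟩
    · exact Prod.ext h1 (le_antisymm h1' h2')
    · exact Prod.ext h1 (le_antisymm h1' (h2 ▸ le_top))
    · exact Prod.ext h2.symm (le_antisymm (h1 ▸ le_top) h2')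
    · rw [h1] at h2'; simp at h2'

lemma le_def {p q : JJ L} :
    p ≤ q ↔ (p.1 = q.1 ∧ p.2 ≤ q.2) ∨ (q.2 = ⊤ ∧ p.2 ≤ (q.1 : WithTop L)) := Iff.rfl

def mk (a : L) (x : WithTop L) : JJ L := (a, x)

lemma col_le {a : L} {x y : WithTop L} (h : x ≤ y) : @LE.le (JJ L) _ (a, x) (a, y) :=
  Or.inl ⟨rfl, h⟩

lemma max_eq {p q : JJ L} (h : p ≤ q) (hp : p.2 = ⊤) : p = q := by
  rcases h with ⟨h1, h2⟩ | ⟨h1, h2⟩
  · exact Prod.ext h1 (le_antisymm h2 (hp ▸ le_top))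
  · rw [hp] at h2; simp at h2

def Cl (C : Set (JJ L)) : Prop :=
  (∀ p q : JJ L, p ≤ q → q ∈ C → p ∈ C) ∧
    ∀ (a : L) (S : Set (WithTop L)), S.Nonempty → (∀ s ∈ S, ((a, s) : JJ L) ∈ C) →
      ((a, sSup S) : JJ L) ∈ C

def top (L : Type) [ConditionallyCompleteLinearOrderBot L] : TopologicalSpace (JJ L) :=
  TopologicalSpace.ofClosed {C | Cl C}
    ⟨fun _ _ _ h => h, fun _ _ ⟨s, hs⟩ h => (h s hs).elim⟩
    (fun A hA => ⟨fun p q h hq C hC => (hA hC).1 p q h (hq C hC),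
      fun a S h1 h2 C hC => (hA hC).2 a S h1 fun s hs => h2 s hs C hC⟩)
    (fun C hC D hD => ⟨fun p q h hq => hq.imp (hC.1 p q h) (hD.1 p q h), fun a S h1 h2 => by
      by_cases h : ∀ s ∈ S, ((a, s) : JJ L) ∈ C
      · exact Or.inl (hC.2 a S h1 h)
      · push Not at h
        obtain ⟨t, ht, ht'⟩ := h
        refine Or.inr (hD.2 a S h1 fun s hs => ?_)
        rcases le_total s t with h | h
        · exact hD.1 _ _ (col_le h) ((h2 t ht).resolve_left ht')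
        · exact (h2 s hs).resolve_left fun h' => ht' (hC.1 _ _ (col_le h) h')⟩)

lemma closed_iff {C : Set (JJ L)} : @IsClosed _ (top L) C ↔ Cl C := by
  letI := top L
  rw [← isOpen_compl_iff]
  show (Cᶜ)ᶜ ∈ {C | Cl C} ↔ _
  rw [compl_compl]; rfl

lemma Cl_Iic (x : JJ L) : Cl (Iic x) := by
  refine ⟨fun p q h hq => h.trans hq, fun a S h1 h2 => ?_⟩
  by_cases h : a = x.1
  · refine Or.inl ⟨h, sSup_le fun s hs => ?_⟩
    rcases h2 s hs with h3 | h3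
    · exact h3.2
    · exact h3.1 ▸ le_top
  · obtain ⟨t, ht⟩ := h1
    exact Or.inr ⟨((h2 t ht).resolve_left fun h' => h h'.1).1,
      sSup_le fun s hs => ((h2 s hs).resolve_left fun h' => h h'.1).2⟩

lemma closure_eq (x : JJ L) : @closure _ (top L) {x} = Iic x := by
  letI := top L
  exact subset_antisymm (closure_minimal (singleton_subset_iff.2 self_mem_Iic)
    (closed_iff.2 (Cl_Iic x))) fun y hy =>
      (closed_iff.1 isClosed_closure).1 y x hy (subset_closure rfl)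

lemma t0 : @T0Space _ (top L) := by
  letI := top L
  refine ⟨fun x y h => ?_⟩
  rw [inseparable_iff_closure_eq, closure_eq, closure_eq] at h
  exact Iic_injective h

lemma dcpo (D : Set (JJ L)) (hne : D.Nonempty) (hdir : DirectedOn (· ≤ ·) D) : ∃ x, IsLUB D x := by
  by_cases h : ∃ q ∈ D, q.2 = ⊤
  · obtain ⟨q, hq, hq'⟩ := h
    refine ⟨q, IsGreatest.isLUB ⟨hq, fun d hd => ?_⟩⟩
    obtain ⟨c, -, h1, h2⟩ := hdir d hd q hq
    exact max_eq h2 hq' ▸ h1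
  · push Not at h
    obtain ⟨q, hq⟩ := id hne
    have key : ∀ d ∈ D, d.1 = q.1 := by
      intro d hd
      obtain ⟨c, hc, h1, h2⟩ := hdir d hd q hq
      exact (h1.resolve_right fun h' => h c hc h'.1).1.trans
        (h2.resolve_right fun h' => h c hc h'.1).1.symm
    refine ⟨(q.1, sSup (Prod.snd '' D)), fun d hd => Or.inl ⟨key d hd, le_sSup ⟨d, hd, rfl⟩⟩,
      fun t ht => (Cl_Iic t).2 _ _ (hne.image _) ?_⟩
    rintro _ ⟨d, hd, rfl⟩
    rw [← key d hd]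
    exact ht hd

lemma fin_of {X : Type} [TopologicalSpace X] {K : Set X} (hK : IsCompact K) {A : Type}
    (p : A → X → Prop) (hp : ∀ (s : ℕ → A) (q : ℕ → X), s.Injective → (∀ n, q n ∈ K) →
      (∀ n, p (s n) (q n)) → ∃ C : ℕ → Set X, (∀ n, IsClosed (C n)) ∧ Antitone C ∧
        (∀ n, q n ∈ C n) ∧ K ∩ ⋂ n, C n = ∅) : {a | ∃ x ∈ K, p a x}.Finite := by
  by_contra hcon
  let s := Set.Infinite.natEmbedding _ hcon
  choose q hq hq' using fun n => (s n).2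
  obtain ⟨C, h1, h2, h3, h4⟩ := hp (fun n => (s n).1) q (Subtype.val_injective.comp s.injective)
    hq hq'
  obtain ⟨n, hn⟩ := hK.elim_directed_family_closed C h1 h4 (directed_of_isDirected_le h2)
  exact (hn ▸ ⟨hq n, h3 n⟩ : q n ∈ (∅ : Set X))

lemma inj_aux {A : Type} {s : ℕ → A} (hs : s.Injective) {a : A} (h : ∀ n, ∃ k, n ≤ k ∧ s k = a) :
    False := by
  obtain ⟨k, -, h1⟩ := h 0
  obtain ⟨l, h2, h3⟩ := h (k + 1)
  have := hs (h1.trans h3.symm)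
  omega

lemma fin_cols {K : Set (JJ L)} (hK : @IsCompact _ (top L) K) :
    {a | ∃ x ∈ K, x.1 = a ∧ x.2 ≠ ⊤}.Finite := by
  letI := top L
  refine fin_of hK _ fun s q hs _ hq => ⟨fun n => {x | ∃ k, n ≤ k ∧ x ≤ q k}, fun n =>
    closed_iff.2 ⟨?_, ?_⟩, fun n m h x ⟨k, h1, h2⟩ => ⟨k, h.trans h1, h2⟩,
    fun n => ⟨n, le_rfl, le_rfl⟩, eq_empty_of_forall_notMem fun x hx => ?_⟩
  · rintro x y h ⟨k, h1, h2⟩
    exact ⟨k, h1, h.trans h2⟩
  · rintro a S ⟨t, ht⟩ h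
    obtain ⟨k, h1, h2⟩ := h t ht
    refine ⟨k, h1, (Cl_Iic (q k)).2 a S ⟨t, ht⟩ fun r hr => ?_⟩
    obtain ⟨l, -, h4⟩ := h r hr
    have h5 := (h2.resolve_right fun h' => (hq k).2 h'.1).1
    have h6 := (h4.resolve_right fun h' => (hq l).2 h'.1).1
    have : k = l := hs (by rw [← (hq k).1, ← (hq l).1, ← h5, ← h6])
    exact this ▸ h4
  · refine inj_aux hs (a := x.1) fun n => ?_
    obtain ⟨k, h1, h2⟩ := mem_iInter.1 hx.2 n
    exact ⟨k, h1, (hq k).1.symm.trans (h2.resolve_right fun h' => (hq k).2 h'.1).1.symm⟩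

lemma fin_max (hL : ∀ s : ℕ → L, ∃ b, ∀ n, s n < b) {K : Set (JJ L)}
    (hK : @IsCompact _ (top L) K) (hm : ∀ x ∈ K, x.2 = ⊤) : K.Finite := by
  letI := top L
  have h1 : {a | ∃ x ∈ K, x.1 = a}.Finite := by
    refine fin_of hK _ fun s q hs _ hq => ?_
    obtain ⟨b, hb⟩ := hL s
    refine ⟨fun n => {x | (∃ k, n ≤ k ∧ s k = x.1) ∨ x.2 ≤ (b : WithTop L)}, fun n =>
      closed_iff.2 ⟨?_, ?_⟩, fun n m h x hx => hx.imp (fun ⟨k, h1, h2⟩ => ⟨k, h.trans h1, h2⟩) id,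
      fun n => Or.inl ⟨n, le_rfl, (hq n).symm⟩, eq_empty_of_forall_notMem fun x hx => ?_⟩
    · rintro x y (h | h) (⟨k, h1, h2⟩ | h1)
      · exact Or.inl ⟨k, h1, h2.trans h.1.symm⟩
      · exact Or.inr (h.2.trans h1)
      · exact Or.inr (h.2.trans (WithTop.coe_le_coe.2 (h2 ▸ (hb k).le)))
      · rw [h.1] at h1; simp at h1
    · intro a S _ h
      by_cases h1 : ∃ k, n ≤ k ∧ s k = a
      · exact Or.inl h1
      · exact Or.inr (sSup_le fun r hr => (h r hr).resolve_left h1)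
    · refine inj_aux hs (a := x.1) fun n => (mem_iInter.1 hx.2 n).resolve_right ?_
      rw [hm x hx.1]; simp
  refine (h1.image fun a => ((a, ⊤) : JJ L)).subset fun x hx => ⟨x.1, ⟨x, hx, rfl⟩, ?_⟩
  exact Prod.ext rfl (hm x hx).symm

lemma fin_dir {X A : Type} {𝒦 : Set (Set X)} (hdir : DirectedOn (· ⊇ ·) 𝒦)
    (F : Set X → Set A) (hF : Monotone F) (hne : ∀ K ∈ 𝒦, (F K).Nonempty) {K0 : Set X}
    (h0 : K0 ∈ 𝒦) (hf : (F K0).Finite) : ∃ a, ∀ K ∈ 𝒦, a ∈ F K := by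
  let T := {K ∈ 𝒦 | K ⊆ K0}
  have hT : T.Nonempty := ⟨K0, h0, subset_rfl⟩
  let M := Function.argminOn (fun K => (F K).ncard) T hT
  have hM : M ∈ T := Function.argminOn_mem _ _ _
  obtain ⟨a, ha⟩ := hne M hM.1
  refine ⟨a, fun K hK => ?_⟩
  obtain ⟨N, hN, h1, h2⟩ := hdir M hM.1 K hK
  have : F N = F M := eq_of_subset_of_ncard_le (hF h1)
    (Function.argminOn_le (fun K => (F K).ncard) T ⟨hN, h1.trans hM.2⟩) (hf.subset (hF hM.2))
  exact hF h2 (this ▸ ha)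

lemma wf (hL : ∀ s : ℕ → L, ∃ b, ∀ n, s n < b) (𝒦 : Set (Set (JJ L))) (hne : 𝒦.Nonempty)
    (hdir : DirectedOn (· ⊇ ·) 𝒦) (hK : ∀ K ∈ 𝒦, @IsCompact _ (top L) K ∧ IsUpperSet K)
    (U : Set (JJ L)) (hU : @IsOpen _ (top L) U) (h : ⋂₀ 𝒦 ⊆ U) : ∃ K ∈ 𝒦, K ⊆ U := by
  letI := top L
  by_contra hcon
  push Not at hcon
  have hC := closed_iff.1 hU.isClosed_compl
  by_cases h1 : ∃ K ∈ 𝒦, ∀ x ∈ K ∩ Uᶜ, x.2 = ⊤
  · obtain ⟨K, h2, h3⟩ := h1
    obtain ⟨a, ha⟩ := fin_dir hdir (fun K => K ∩ Uᶜ) (fun _ _ h => inter_subset_inter_left _ h)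
      (fun K hK => not_subset.1 (hcon K hK)) h2
      (fin_max hL ((hK K h2).1.inter_right hU.isClosed_compl) h3)
    exact (ha K h2).2 (h fun K hK => (ha K hK).1)
  · push Not at h1
    obtain ⟨K0, h0⟩ := id hne
    obtain ⟨a, ha⟩ := fin_dir hdir (fun K => {a | ∃ x ∈ K ∩ Uᶜ, x.1 = a ∧ x.2 ≠ ⊤})
      (fun _ _ h _ ⟨x, h1, h2⟩ => ⟨x, inter_subset_inter_left _ h h1, h2⟩)
      (fun K hK => (h1 K hK).elim fun x hx => ⟨x.1, x, hx.1, rfl, hx.2⟩) h0
      (fin_cols ((hK K0 h0).1.inter_right hU.isClosed_compl))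
    obtain ⟨x, hx, hx', -⟩ := ha K0 h0
    refine hC.2 a {s | ((a, s) : JJ L) ∈ Uᶜ} ⟨x.2, by rw [← hx']; exact hx.2⟩ (fun _ h => h)
      (h fun K hK' => ?_)
    obtain ⟨y, hy, hy', -⟩ := ha K hK'
    exact (hK K hK').2 (Or.inl ⟨hy', le_sSup (by rw [← hy']; exact hy.2)⟩) hy.1

lemma not_sober (hL : ∀ s : ℕ → L, ∃ b, ∀ n, s n < b) (t : TopologicalSpace (JJ L))
    (ht : ∀ x : JJ L, closure {x} = Iic x) (hs : QuasiSober (JJ L)) : False := by
  have hL2 : ∀ a b : L, ∃ c, a < c ∧ b < c := fun a b =>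
    (hL fun _ => max a b).imp fun c hc => max_lt_iff.1 (hc 0)
  have low : ∀ C : Set (JJ L), IsClosed C → ∀ p q : JJ L, p ≤ q → q ∈ C → p ∈ C :=
    fun C hC p q h hq => closure_minimal (singleton_subset_iff.2 hq) hC
      (ht q ▸ h : p ∈ closure {q})
  have key : ∀ C : Set (JJ L), IsClosed C → (∀ a, ∃ b, a ≤ b ∧ ((b, ⊤) : JJ L) ∈ C) →
      univ ⊆ C := by
    intro C hC h x _
    have hirr : IsIrreducible (range fun b : L => mk x.1 (b : WithTop L)) := by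
      refine ⟨range_nonempty _, isPreirreducible_iff_isClosed_union_isClosed.2 ?_⟩
      intro A B hA hB hAB
      by_contra hcon
      simp only [not_or, range_subset_iff, not_forall] at hcon
      obtain ⟨⟨a, ha⟩, b, hb⟩ := hcon
      rcases hAB ⟨max a b, rfl⟩ with h | h
      · exact ha (low A hA _ _ (col_le (WithTop.coe_le_coe.2 (le_max_left a b))) h)
      · exact hb (low B hB _ _ (col_le (WithTop.coe_le_coe.2 (le_max_right a b))) h)
    obtain ⟨y, hy⟩ := QuasiSober.sober hirr.closure isClosed_closure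
    have h1 : ∀ b : L, @LE.le (JJ L) _ (x.1, (b : WithTop L)) y := fun b => by
      have : mk x.1 (b : WithTop L) ∈ closure {y} := by
        rw [hy]; exact subset_closure ⟨b, rfl⟩
      rwa [ht] at this
    have h2 : y ∈ C := by
      refine closure_minimal ?_ hC hy.mem
      rintro _ ⟨b, rfl⟩
      obtain ⟨c, h3, h4⟩ := h b
      exact low C hC _ _ (Or.inr ⟨rfl, WithTop.coe_le_coe.2 h3⟩) h4
    refine low C hC _ _ (Or.inl ?_) h2
    have h3 : ∀ b : L, y.1 < b → x.1 = y.1 ∧ (b : WithTop L) ≤ y.2 := fun b hb =>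
      (h1 b).resolve_right fun h => absurd (WithTop.coe_le_coe.1 h.2) (not_le.2 hb)
    obtain ⟨b, hb, -⟩ := hL2 y.1 y.1
    refine ⟨(h3 b hb).1, ?_⟩
    by_cases h4 : y.2 = ⊤
    · rw [h4]; exact le_top
    · obtain ⟨z, hz⟩ := WithTop.ne_top_iff_exists.1 h4
      obtain ⟨c, h5, h6⟩ := hL2 y.1 z
      have := (h3 c h5).2
      rw [← hz] at this
      exact absurd (WithTop.coe_le_coe.1 this) (not_le.2 h6)
  have hirr : IsIrreducible (univ : Set (JJ L)) := by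
    refine ⟨⟨((⊥, ⊤) : JJ L), trivial⟩, isPreirreducible_iff_isClosed_union_isClosed.2 ?_⟩
    intro A B hA hB hAB
    by_contra hcon
    rw [not_or] at hcon
    have h1 := mt (key A hA) hcon.1
    have h2 := mt (key B hB) hcon.2
    push Not at h1 h2
    obtain ⟨a, ha⟩ := h1
    obtain ⟨b, hb⟩ := h2
    rcases hAB (mem_univ ((max a b, ⊤) : JJ L)) with h | h
    · exact ha _ (le_max_left a b) h
    · exact hb _ (le_max_right a b) h
  obtain ⟨y, hy⟩ := QuasiSober.sober hirr isClosed_univ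
  have h1 : ∀ a : L, ((a, ⊤) : JJ L) = y := fun a => by
    have : mk a ⊤ ∈ closure {y} := by rw [hy]; trivial
    rw [ht] at this
    exact max_eq this rfl
  obtain ⟨b, hb, -⟩ := hL2 y.1 y.1
  exact hb.ne' (congrArg Prod.fst (h1 b))

open Ordinal in
lemma omega_bdd (s : ℕ → (ω₁ : Ordinal.{0}).ToType) : ∃ b, ∀ n, s n < b := by
  have h1 : (⨆ n, Order.succ (ToType.mk.symm (s n)).1) < ω₁ :=
    Ordinal.iSup_lt_omega_one fun n =>
      (Cardinal.isSuccLimit_omega 1).succ_lt (ToType.mk.symm (s n)).2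
  refine ⟨ToType.mk ⟨_, h1⟩, fun n => ?_⟩
  rw [← ToType.mk.apply_symm_apply (s n), OrderIso.lt_iff_lt]
  exact Subtype.coe_lt_coe.1 ((Order.lt_succ (ToType.mk.symm (s n)).1).trans_le
    (Ordinal.le_iSup (fun n => Order.succ (ToType.mk.symm (s n)).1) n))

end Pool.Agent.H.MP_c1092b_gt
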